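import Mathlib

/-!
# The `Z`-versions of function space topologies differ from the classical ones
-/

open Set TopologicalSpace

namespace Pool.Agent.Results.MP_43be50_gt.StrictInclusions

universe u v

section Defs

variable (Y : Type u) (Z : Type v) [TopologicalSpace Y] [TopologicalSpace Z]

/-- The open sets of the form `f⁻¹(U)`, `f : Y → Z` continuous and `U` open in `Z`. -/
def OZ : Set (Opens Y) := {W | ∃ (f : C(Y, Z)) (U : Opens Z), W = Opens.comap f U}

/-- The topology on `Y` with the subbasis `OZ`. -/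
@[instance_reducible]
def tauYZ : TopologicalSpace Y := generateFrom {W | ∃ V ∈ OZ Y Z, W = (V : Set Y)}

/-- The set `(K,U)` of all continuous maps sending `K` into `U`. -/
def KU {Y : Type u} {Z : Type v} [TopologicalSpace Y] [TopologicalSpace Z]
    (K : Set Y) (U : Opens Z) : Set C(Y, Z) := {f | f '' K ⊆ U}

/-- The set `(ℍ,U)` of all continuous maps with `f⁻¹(U) ∈ ℍ`. -/
def HU {Y : Type u} {Z : Type v} [TopologicalSpace Y] [TopologicalSpace Z]
    (H : Set (Opens Y)) (U : Opens Z) : Set C(Y, Z) := {f | Opens.comap f U ∈ H}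

/-- The compact-open topology. -/
@[instance_reducible]
def tCo : TopologicalSpace C(Y, Z) :=
  generateFrom {S | ∃ (K : Set Y) (U : Opens Z), IsCompact K ∧ S = KU K U}

/-- Its `Z`-version: `Z`-compact sets instead of compact sets. -/
@[instance_reducible]
def tCoZ : TopologicalSpace C(Y, Z) :=
  generateFrom {S | ∃ (K : Set Y) (U : Opens Z), @IsCompact Y (tauYZ Y Z) K ∧ S = KU K U}

/-- Open sets of the Scott topology. -/
def ScottOpen (H : Set (Opens Y)) : Prop :=
  (∀ W ∈ H, ∀ V : Opens Y, W ≤ V → V ∈ H) ∧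
    ∀ S : Set (Opens Y), sSup S ∈ H → ∃ F ⊆ S, F.Finite ∧ sSup F ∈ H

/-- Open sets of the strong Scott topology. -/
def StrongScottOpen (H : Set (Opens Y)) : Prop :=
  (∀ W ∈ H, ∀ V : Opens Y, W ≤ V → V ∈ H) ∧
    ∀ S : Set (Opens Y), sSup S = ⊤ → ∃ F ⊆ S, F.Finite ∧ sSup F ∈ H

/-- Open sets of the topology `τ₁^Z`. -/
def ScottOpenZ (H : Set (Opens Y)) : Prop :=
  (∀ W ∈ H, W ∈ OZ Y Z → ∀ V : Opens Y, W ≤ V → V ∈ H) ∧
    ∀ S ⊆ OZ Y Z, sSup S ∈ H → ∃ F ⊆ S, F.Finite ∧ sSup F ∈ H

/-- Open sets of the topology `τ_{1,s}^Z`. -/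
def StrongScottOpenZ (H : Set (Opens Y)) : Prop :=
  (∀ W ∈ H, W ∈ OZ Y Z → ∀ V : Opens Y, W ≤ V → V ∈ H) ∧
    ∀ S ⊆ OZ Y Z, sSup S = ⊤ → ∃ F ⊆ S, F.Finite ∧ sSup F ∈ H

/-- The Isbell topology. -/
@[instance_reducible]
def tIs : TopologicalSpace C(Y, Z) :=
  generateFrom {S | ∃ (H : Set (Opens Y)) (U : Opens Z), ScottOpen Y H ∧ S = HU H U}

/-- The strong Isbell topology. -/
@[instance_reducible]
def tSIs : TopologicalSpace C(Y, Z) :=
  generateFrom {S | ∃ (H : Set (Opens Y)) (U : Opens Z), StrongScottOpen Y H ∧ S = HU H U}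

/-- The topology `t₁^Z`. -/
@[instance_reducible]
def t1Z : TopologicalSpace C(Y, Z) :=
  generateFrom {S | ∃ (H : Set (Opens Y)) (U : Opens Z), ScottOpenZ Y Z H ∧ S = HU H U}

/-- The topology `t_{1,s}^Z`. -/
@[instance_reducible]
def t1SZ : TopologicalSpace C(Y, Z) :=
  generateFrom {S | ∃ (H : Set (Opens Y)) (U : Opens Z), StrongScottOpenZ Y Z H ∧ S = HU H U}

end Defs

/-- Countably infinite sets of reals. -/
abbrev CI : Type := {J : Set ℝ // J.Infinite ∧ J.Countable}

/-- The points of the space. -/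
inductive P : Type
  | inf : P
  | pt : ℝ → Bool → P
  | y : CI → P

open P

instance : TopologicalSpace P where
  IsOpen U := (inf ∈ U → {i | pt i false ∉ U}.Finite) ∧
    ∀ J : CI, y J ∈ U → {i | i ∈ J.1 ∧ (pt i false ∉ U ∨ pt i true ∉ U)}.Finite
  isOpen_univ := by
    refine ⟨fun _ => ?_, fun J _ => ?_⟩
    · simp
    · simp
  isOpen_inter := by
    rintro U V ⟨hU1, hU2⟩ ⟨hV1, hV2⟩
    refine ⟨fun h => ((hU1 h.1).union (hV1 h.2)).subset ?_,
      fun J h => ((hU2 J h.1).union (hV2 J h.2)).subset ?_⟩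
    · intro i hi
      by_cases h1 : pt i false ∈ U
      · exact Or.inr fun h2 => hi ⟨h1, h2⟩
      · exact Or.inl h1
    · rintro i ⟨hi, h⟩
      by_cases h1 : pt i false ∈ U ∧ pt i true ∈ U
      · right
        refine ⟨hi, ?_⟩
        rcases h with h | h
        · exact Or.inl fun h2 => h ⟨h1.1, h2⟩
        · exact Or.inr fun h2 => h ⟨h1.2, h2⟩
      · left
        refine ⟨hi, ?_⟩
        rwa [not_and_or] at h1
  isOpen_sUnion := by
    intro S hS
    refine ⟨?_, ?_⟩
    · rintro ⟨U, hU, h⟩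
      exact ((hS U hU).1 h).subset fun i hi h' => hi ⟨U, hU, h'⟩
    · rintro J ⟨U, hU, h⟩
      refine ((hS U hU).2 J h).subset ?_
      rintro i ⟨hi, h'⟩
      refine ⟨hi, h'.imp (fun h1 h2 => h1 ⟨U, hU, h2⟩) (fun h1 h2 => h1 ⟨U, hU, h2⟩)⟩

theorem isOpen_P {U : Set P} : IsOpen U ↔ (inf ∈ U → {i | pt i false ∉ U}.Finite) ∧
    ∀ J : CI, y J ∈ U → {i | i ∈ J.1 ∧ (pt i false ∉ U ∨ pt i true ∉ U)}.Finite := Iff.rfl

/-- Clopen neighbourhoods of `inf` are cofinite. -/
theorem clopen_cofinite {W : Set P} (hW : IsClopen W) (h : inf ∈ W) : Wᶜ.Finite := by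
  have hA : {i | pt i false ∉ W}.Finite := (isOpen_P.1 hW.2).1 h
  -- every infinite set has infinitely many indices in `W`
  have hy : ∀ J : CI, y J ∈ W := by
    intro J
    by_contra hJ
    have h1 := (isOpen_P.1 hW.1.isOpen_compl).2 J hJ
    apply J.2.1
    refine (h1.union hA).subset ?_
    intro i hi
    by_cases hi' : pt i false ∈ W
    · exact Or.inl ⟨hi, Or.inl fun h => h hi'⟩
    · exact Or.inr hi'
  have hB : {i | pt i true ∉ W}.Finite := by
    by_contra hB
    have hB' : {i | pt i true ∉ W}.Infinite := hB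
    let f := hB'.natEmbedding
    let J : CI := ⟨range fun n => (f n : ℝ), by
      refine Set.infinite_range_of_injective ?_
      intro a b hab
      exact f.injective (Subtype.ext hab), countable_range _⟩
    have h1 := (isOpen_P.1 hW.2).2 J (hy J)
    apply J.2.1
    refine h1.subset ?_
    rintro i ⟨n, rfl⟩
    exact ⟨⟨n, rfl⟩, Or.inr (f n).2⟩
  refine ((hA.image fun i => pt i false).union (hB.image fun i => pt i true)).subset ?_
  intro p hp
  rcases p with _ | ⟨i, b⟩ | J
  · exact absurd h hp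
  · cases b
    · exact Or.inl ⟨i, hp, rfl⟩
    · exact Or.inr ⟨i, hp, rfl⟩
  · exact absurd (hy J) hp

theorem clopen_of_mem_OZ {W : Opens P} (h : W ∈ OZ P Bool) : IsClopen (W : Set P) := by
  obtain ⟨f, U, rfl⟩ := h
  exact (isClopen_discrete (U : Set Bool)).preimage f.continuous

/-- A family of members of `OZ` covering the space has a finite subcover. -/
theorem finite_subcover {S : Set (Opens P)} (hS : S ⊆ OZ P Bool) (h : sSup S = ⊤) :
    ∃ F ⊆ S, F.Finite ∧ sSup F = ⊤ := by
  have hmem : ∀ p : P, ∃ W ∈ S, p ∈ W := by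
    intro p
    have : p ∈ sSup S := by rw [h]; trivial
    rwa [Opens.mem_sSup] at this
  choose W hWS hW using hmem
  have hfin := clopen_cofinite (clopen_of_mem_OZ (hS (hWS inf))) (hW inf)
  refine ⟨insert (W inf) (W '' ((W inf : Set P)ᶜ)), ?_, (hfin.image _).insert _, ?_⟩
  · rintro V (rfl | ⟨p, _, rfl⟩)
    · exact hWS _
    · exact hWS _
  · rw [eq_top_iff]
    intro p _
    rw [Opens.mem_sSup]
    by_cases hp : p ∈ W inf
    · exact ⟨W inf, mem_insert _ _, hp⟩
    · exact ⟨W p, mem_insert_of_mem _ ⟨p, hp, rfl⟩, hW p⟩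

theorem open_cofinite {U : Set P} (hU : @IsOpen P (tauYZ P Bool) U) (h : inf ∈ U) :
    Uᶜ.Finite := by
  induction hU with
  | basic W hW =>
    obtain ⟨V, hV, rfl⟩ := hW
    exact clopen_cofinite (clopen_of_mem_OZ hV) h
  | univ => simp
  | inter s t _ _ hs ht =>
    rw [compl_inter]
    exact (hs h.1).union (ht h.2)
  | sUnion S _ hS =>
    obtain ⟨V, hV, hVm⟩ := h
    exact (hS V hV hVm).subset (compl_subset_compl.2 (subset_sUnion_of_mem hV))

theorem compact_univ : @IsCompact P (tauYZ P Bool) univ := by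
  refine @isCompact_of_finite_subcover P (tauYZ P Bool) _ ?_
  intro ι U hU hcov
  have hmem : ∀ p : P, ∃ i, p ∈ U i := fun p => mem_iUnion.1 (hcov (mem_univ p))
  choose i hi using hmem
  classical
  have hfin := open_cofinite (hU (i inf)) (hi inf)
  refine ⟨insert (i inf) (hfin.toFinset.image i), ?_⟩
  intro p _
  by_cases hp : p ∈ U (i inf)
  · exact mem_iUnion₂.2 ⟨i inf, Finset.mem_insert_self _ _, hp⟩
  · exact mem_iUnion₂.2 ⟨i p, Finset.mem_insert_of_mem (Finset.mem_image_of_mem _
      (hfin.mem_toFinset.2 hp)), hi p⟩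

/-- The constant map. -/
def one : C(P, Bool) := ContinuousMap.const P true

/-- The open set `{true}`. -/
def T : Opens Bool := ⟨{true}, isOpen_discrete _⟩

theorem KU_univ : KU (univ : Set P) T = {one} := by
  ext f
  constructor
  · intro hf
    refine ContinuousMap.ext fun p => ?_
    exact hf ⟨p, trivial, rfl⟩
  · rintro rfl
    rintro _ ⟨p, _, rfl⟩
    rfl

theorem HU_top : HU {(⊤ : Opens P)} T = {one} := by
  ext f
  constructor
  · intro hf
    refine ContinuousMap.ext fun p => ?_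
    have h1 : Opens.comap f T = ⊤ := hf
    have h2 : p ∈ Opens.comap f T := by rw [h1]; trivial
    exact h2
  · rintro rfl
    change Opens.comap one T = ⊤
    ext p
    simp [one, T, Opens.comap]

theorem open_tCoZ : @IsOpen _ (tCoZ P Bool) {one} :=
  isOpen_generateFrom_of_mem ⟨univ, T, compact_univ, KU_univ.symm⟩

theorem open_t1Z : @IsOpen _ (t1Z P Bool) {one} := by
  refine isOpen_generateFrom_of_mem ⟨{⊤}, T, ⟨?_, ?_⟩, HU_top.symm⟩
  · rintro W rfl _ V hV
    exact top_le_iff.1 hV
  · intro S hS h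
    exact finite_subcover hS h

theorem open_t1SZ : @IsOpen _ (t1SZ P Bool) {one} := by
  refine isOpen_generateFrom_of_mem ⟨{⊤}, T, ⟨?_, ?_⟩, HU_top.symm⟩
  · rintro W rfl _ V hV
    exact top_le_iff.1 hV
  · intro S hS h
    exact finite_subcover hS h

/-! ## The classical topologies -/

theorem isClopen_compl_pt (i : ℝ) : IsClopen ({pt i true}ᶜ : Set P) := by
  constructor
  · rw [isClosed_compl_iff, isOpen_P]
    exact ⟨fun h => by simp at h, fun J h => by simp at h⟩
  · rw [isOpen_P]
    refine ⟨fun _ => ?_, fun J _ => (finite_singleton i).subset ?_⟩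
    · simp
    · rintro j ⟨_, h | h⟩
      · simp at h
      · simpa using h

open Classical in
/-- The map which is `false` at the point `pt i true` only. -/
noncomputable def g (i : ℝ) : C(P, Bool) where
  toFun p := if p = pt i true then false else true
  continuous_toFun := by
    rw [continuous_discrete_rng]
    intro b
    cases b
    · have : (fun p => if p = pt i true then false else true) ⁻¹' {false} =
          (({pt i true}ᶜ : Set P)ᶜ) := by
        ext p
        by_cases h : p = pt i true <;> simp [h]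
      rw [this]
      exact (isClopen_compl_pt i).compl.2
    · have : (fun p => if p = pt i true then false else true) ⁻¹' {true} =
          ({pt i true}ᶜ : Set P) := by
        ext p
        by_cases h : p = pt i true <;> simp [h]
      rw [this]
      exact (isClopen_compl_pt i).2

theorem g_apply_of_ne {i : ℝ} {p : P} (h : p ≠ pt i true) : g i p = true := by
  simp [g, h]

theorem g_apply_self (i : ℝ) : g i (pt i true) = false := by
  simp [g]

/-- The open sets of a cover, each of which contains only countably many points `pt i true`. -/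
def cov : Set (Opens P) := {V | {i | pt i true ∈ V}.Countable}

theorem sSup_cov : sSup cov = (⊤ : Opens P) := by
  rw [eq_top_iff]
  intro p _
  rw [Opens.mem_sSup]
  rcases p with _ | ⟨i, b⟩ | J
  · refine ⟨⟨{p | p = inf ∨ ∃ i, p = pt i false}, ?_⟩, ?_, Or.inl rfl⟩
    · rw [isOpen_P]
      refine ⟨fun _ => ?_, fun J h => ?_⟩
      · simp
      · simp at h
    · change {i | pt i true ∈ ({p | p = inf ∨ ∃ i, p = pt i false} : Set P)}.Countable
      simp
  · refine ⟨⟨{pt i b}, ?_⟩, ?_, rfl⟩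
    · rw [isOpen_P]
      exact ⟨fun h => by simp at h, fun J h => by simp at h⟩
    · change {j | pt j true ∈ ({pt i b} : Set P)}.Countable
      refine (countable_singleton i).mono ?_
      intro j hj
      simp only [mem_ofPred_eq, mem_singleton_iff, pt.injEq] at hj
      exact hj.1
  · refine ⟨⟨{p | p = y J ∨ ∃ i ∈ J.1, ∃ b, p = pt i b}, ?_⟩, ?_, Or.inl rfl⟩
    · rw [isOpen_P]
      refine ⟨fun h => by simp at h, fun J' h => ?_⟩
      have hJ : J' = J := by
        rcases h with h | ⟨i, _, b, h⟩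
        · exact P.y.inj h
        · simp at h
      subst hJ
      refine finite_empty.subset ?_
      rintro i ⟨hi, h | h⟩
      · exact h (Or.inr ⟨i, hi, false, rfl⟩)
      · exact h (Or.inr ⟨i, hi, true, rfl⟩)
    · change {j | pt j true ∈ ({p | p = y J ∨ ∃ i ∈ J.1, ∃ b, p = pt i b} : Set P)}.Countable
      refine J.2.2.mono ?_
      intro j hj
      rcases hj with h | ⟨i, hi, b, h⟩
      · simp at h
      · rw [P.pt.injEq] at h
        rw [h.1]; exact hi

/-- Sets of maps which contain `g i` for all but countably many `i` if they contain `one`. -/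
def Good (S : Set C(P, Bool)) : Prop := one ∈ S → ∃ N : Set ℝ, N.Countable ∧ ∀ i ∉ N, g i ∈ S

theorem countable_of_finite {F : Set (Opens P)} (hF : F ⊆ cov) (hfin : F.Finite) :
    {i | pt i true ∈ sSup F}.Countable := by
  have h : {i | pt i true ∈ sSup F} = ⋃ V ∈ F, {i | pt i true ∈ V} := by
    ext i
    simp only [mem_ofPred_eq, Opens.mem_sSup, mem_iUnion, exists_prop]
  rw [h]
  exact hfin.countable.biUnion fun V hV => hF hV

theorem good_HU {H : Set (Opens P)} (U : Opens Bool)
    (hup : ∀ W ∈ H, ∀ V : Opens P, W ≤ V → V ∈ H)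
    (hcov : (⊤ : Opens P) ∈ H → ∃ F ⊆ cov, F.Finite ∧ sSup F ∈ H) : Good (HU H U) := by
  intro h
  have h1 : Opens.comap one U ∈ H := h
  by_cases ht : true ∈ U
  · have htop : (⊤ : Opens P) ∈ H := hup _ h1 _ le_top
    obtain ⟨F, hF, hfin, hFH⟩ := hcov htop
    refine ⟨_, countable_of_finite hF hfin, fun i hi => ?_⟩
    refine hup _ hFH _ ?_
    intro p hp
    have hne : p ≠ pt i true := by
      rintro rfl
      exact hi hp
    change g i p ∈ U
    rw [g_apply_of_ne hne]
    exact ht
  · refine ⟨∅, countable_empty, fun i _ => ?_⟩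
    refine hup _ h1 _ ?_
    intro p hp
    exact absurd hp ht

theorem good_of_open (B : Set (Set C(P, Bool))) (hB : ∀ S ∈ B, Good S) :
    ¬ @IsOpen _ (generateFrom B) {one} := by
  intro h
  have hgood : ∀ S, GenerateOpen B S → Good S := by
    intro S hS
    induction hS with
    | basic S hS => exact hB S hS
    | univ => exact fun _ => ⟨∅, countable_empty, fun _ _ => trivial⟩
    | inter s t _ _ hs ht =>
      intro h
      obtain ⟨N, hN, hN'⟩ := hs h.1
      obtain ⟨M, hM, hM'⟩ := ht h.2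
      exact ⟨N ∪ M, hN.union hM, fun i hi => ⟨hN' i fun h => hi (Or.inl h),
        hM' i fun h => hi (Or.inr h)⟩⟩
    | sUnion 𝒮 _ h𝒮 =>
      rintro ⟨V, hV, hVm⟩
      obtain ⟨N, hN, hN'⟩ := h𝒮 V hV hVm
      exact ⟨N, hN, fun i hi => ⟨V, hV, hN' i hi⟩⟩
  obtain ⟨N, hN, hN'⟩ := hgood _ h rfl
  obtain ⟨i, hi⟩ : ∃ i, i ∉ N := by
    by_contra hcon
    push Not at hcon
    exact Set.not_countable_univ (hN.mono fun i _ => hcon i)
  have h1 : g i = one := hN' i hi
  have h2 : g i (pt i true) = one (pt i true) := by rw [h1]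
  rw [g_apply_self] at h2
  exact absurd h2 (by simp [one])

theorem not_open_tIs : ¬ @IsOpen _ (tIs P Bool) {one} := by
  apply good_of_open
  rintro _ ⟨H, U, hH, rfl⟩
  refine good_HU U hH.1 fun h => ?_
  rw [← sSup_cov] at h
  exact hH.2 _ h

theorem not_open_tSIs : ¬ @IsOpen _ (tSIs P Bool) {one} := by
  apply good_of_open
  rintro _ ⟨H, U, hH, rfl⟩
  exact good_HU U hH.1 fun _ => hH.2 _ sSup_cov

theorem not_open_tCo : ¬ @IsOpen _ (tCo P Bool) {one} := by
  apply good_of_open
  rintro _ ⟨K, U, hK, rfl⟩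
  intro h
  rcases K.eq_empty_or_nonempty with rfl | ⟨k, hk⟩
  · exact ⟨∅, countable_empty, fun i _ => by simp [KU]⟩
  · have ht : true ∈ U := h ⟨k, hk, rfl⟩
    obtain ⟨t, htc⟩ := hK.elim_finite_subcover (fun V : cov => (V.1 : Set P))
      (fun V => V.1.isOpen) (by
        intro p _
        have h1 : p ∈ sSup cov := by rw [sSup_cov]; trivial
        obtain ⟨V, hV, hp⟩ := Opens.mem_sSup.1 h1
        exact mem_iUnion.2 ⟨⟨V, hV⟩, hp⟩)
    refine ⟨⋃ V ∈ t, {i | pt i true ∈ V.1}, t.countable_toSet.biUnion fun V _ => V.2, ?_⟩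
    intro i hi
    rintro _ ⟨p, hp, rfl⟩
    have hne : p ≠ pt i true := by
      rintro rfl
      obtain ⟨V, hV, hpV⟩ := mem_iUnion₂.1 (htc hp)
      exact hi (mem_iUnion₂.2 ⟨V, hV, hpV⟩)
    rw [g_apply_of_ne hne]
    exact ht

/-- There are spaces `Y`, `Z` for which all three pairs of topologies are different. -/
theorem result : ∃ (Y Z : Type) (_ : TopologicalSpace Y) (_ : TopologicalSpace Z),
    tCoZ Y Z ≠ tCo Y Z ∧ t1Z Y Z ≠ tIs Y Z ∧ t1SZ Y Z ≠ tSIs Y Z := by
  refine ⟨P, Bool, inferInstance, inferInstance, ?_, ?_, ?_⟩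
  · intro h
    exact not_open_tCo (h ▸ open_tCoZ)
  · intro h
    exact not_open_tIs (h ▸ open_t1Z)
  · intro h
    exact not_open_tSIs (h ▸ open_t1SZ)

end Pool.Agent.Results.MP_43be50_gt.StrictInclusions
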